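import Pool.Agent.Helper69.ST.Goals
import Pool.Agent.Helper45.Stek.FM

open MeasureTheory Set Complex Metric Filter
open scoped ContDiff Topology ENNReal

namespace Pool.Agent.Helper19.ST.H2

open Pool.Agent.Helper45.Stek Pool.Agent.Helper69.ST

theorem int_exp (k : ℤ) (hk : k ≠ 0) :
    ∫ θ in (-Real.pi)..Real.pi, exp ((k : ℂ) * θ * I) = 0 := by
  have h : ∀ θ : ℝ, exp ((k : ℂ) * θ * I) = exp (((k : ℂ) * I) * θ) := by
    intro θ
    congr 1
    ring
  simp_rw [h]
  have hk' : (k : ℂ) * I ≠ 0 := mul_ne_zero (by exact_mod_cast hk) I_ne_zero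
  rw [integral_exp_mul_complex hk']
  have h2 : exp ((k : ℂ) * I * (Real.pi : ℝ)) = exp ((k : ℂ) * I * ((-Real.pi : ℝ) : ℂ)) := by
    rw [Complex.exp_eq_exp_iff_exists_int]
    refine ⟨k, ?_⟩
    push_cast
    ring
  rw [h2, sub_self, zero_div]

theorem norm_e (x : ℝ) : ‖exp ((x : ℂ) * I)‖ = 1 := Complex.norm_exp_ofReal_mul_I x

theorem norm_e2 (p n : ℕ) (θ : ℝ) : ‖exp ((((p : ℤ) * n : ℤ) : ℂ) * θ * I)‖ = 1 := by
  have h : (((p : ℤ) * n : ℤ) : ℂ) * θ * I = (((p * n * θ : ℝ)) : ℂ) * I := by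
    push_cast
    ring
  rw [h, norm_e]

/-- Parseval for an absolutely convergent series. -/
theorem parseval (b : ℕ → ℂ) (p : ℕ) (hp : 1 ≤ p) (hb : Summable (fun n => ‖b n‖)) :
    HasSum (fun n => 2 * Real.pi * ‖b n‖ ^ 2)
      (∫ θ in (-Real.pi)..Real.pi,
        ‖∑' n : ℕ, b n * exp ((((p : ℤ) * n : ℤ) : ℂ) * θ * I)‖ ^ 2) := by
  set e : ℕ → ℝ → ℂ := fun n θ => exp ((((p : ℤ) * n : ℤ) : ℂ) * θ * I) with he
  have hen : ∀ n θ, ‖e n θ‖ = 1 := fun n θ => norm_e2 p n θ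
  have hec : ∀ n, Continuous (e n) := by
    intro n
    simp only [he]
    fun_prop
  set h : ℝ → ℂ := fun θ => ∑' n : ℕ, b n * e n θ with hh
  have hbn : ∀ n θ, ‖b n * e n θ‖ = ‖b n‖ := by
    intro n θ
    rw [norm_mul, hen, mul_one]
  have hhc : Continuous h := by
    apply continuous_tsum (u := fun n => ‖b n‖)
    · intro n
      exact continuous_const.mul (hec n)
    · exact hb
    · intro n θ
      exact (hbn n θ).le
  have hhb : ∀ θ, ‖h θ‖ ≤ ∑' n, ‖b n‖ := by
    intro θ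
    have := norm_tsum_le_tsum_norm (f := fun n => b n * e n θ) (by
      simpa only [hbn] using hb)
    simpa only [hbn] using this
  have hsum : ∀ θ, HasSum (fun n => b n * e n θ) (h θ) := by
    intro θ
    apply Summable.hasSum
    apply Summable.of_norm
    simpa only [hbn] using hb
  -- the general termwise integration
  have key : ∀ g : ℝ → ℂ, Continuous g → ∀ C : ℝ, (∀ θ, ‖g θ‖ ≤ C) →
      HasSum (fun n => ∫ θ in (-Real.pi)..Real.pi, (b n * e n θ) * g θ)
        (∫ θ in (-Real.pi)..Real.pi, h θ * g θ) := by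
    intro g hg C hC
    apply intervalIntegral.hasSum_integral_of_dominated_convergence (fun n _ => ‖b n‖ * C)
    · intro n
      exact ((continuous_const.mul (hec n)).mul hg).aestronglyMeasurable
    · intro n
      refine Eventually.of_forall fun θ _ => ?_
      rw [norm_mul, hbn]
      exact mul_le_mul_of_nonneg_left (hC θ) (norm_nonneg _)
    · refine Eventually.of_forall fun θ _ => hb.mul_right C
    · exact intervalIntegrable_const
    · refine Eventually.of_forall fun θ _ => (hsum θ).mul_right (g θ)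
  have orth : ∀ m n : ℕ, ∫ θ in (-Real.pi)..Real.pi, e n θ * starRingEnd ℂ (e m θ) =
      if n = m then ((2 * Real.pi : ℝ) : ℂ) else 0 := by
    intro m n
    have h1 : ∀ θ : ℝ, e n θ * starRingEnd ℂ (e m θ) =
        exp ((((p : ℤ) * ((n : ℤ) - m) : ℤ) : ℂ) * θ * I) := by
      intro θ
      simp only [he]
      rw [← Complex.exp_conj, ← Complex.exp_add]
      congr 1
      simp only [map_mul, Complex.conj_ofReal, Complex.conj_I, map_intCast]
      push_cast
      ring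
    simp_rw [h1]
    split_ifs with hnm
    · subst hnm
      simp only [sub_self, mul_zero, Int.cast_zero, zero_mul, Complex.exp_zero,
        intervalIntegral.integral_const, sub_neg_eq_add]
      rw [← two_mul]
      simp
    · apply int_exp
      apply mul_ne_zero
      · exact_mod_cast (by omega : p ≠ 0)
      · intro h0
        apply hnm
        omega
  have h1 : ∀ m : ℕ, ∫ θ in (-Real.pi)..Real.pi, h θ * starRingEnd ℂ (e m θ) =
      ((2 * Real.pi : ℝ) : ℂ) * b m := by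
    intro m
    have hk := key (fun θ => starRingEnd ℂ (e m θ)) (Complex.continuous_conj.comp (hec m)) 1 (by
      intro θ
      rw [RCLike.norm_conj, hen])
    have hk2 : HasSum (fun n => ∫ θ in (-Real.pi)..Real.pi,
        (b n * e n θ) * starRingEnd ℂ (e m θ)) (((2 * Real.pi : ℝ) : ℂ) * b m) := by
      have : (fun n => ∫ θ in (-Real.pi)..Real.pi, (b n * e n θ) * starRingEnd ℂ (e m θ)) =
          fun n => if n = m then ((2 * Real.pi : ℝ) : ℂ) * b m else 0 := by
        funext n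
        have h2 : ∀ θ : ℝ, (b n * e n θ) * starRingEnd ℂ (e m θ) =
            b n * (e n θ * starRingEnd ℂ (e m θ)) := fun θ => mul_assoc _ _ _
        simp_rw [h2]
        rw [intervalIntegral.integral_const_mul, orth]
        split_ifs with hnm
        · subst hnm
          ring
        · simp
      rw [this]
      exact hasSum_ite_eq m _
    exact hk.unique hk2
  have h2 := key (fun θ => starRingEnd ℂ (h θ)) (Complex.continuous_conj.comp hhc) _ (by
    intro θ
    rw [RCLike.norm_conj]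
    exact hhb θ)
  have h3 : ∀ n : ℕ, ∫ θ in (-Real.pi)..Real.pi, (b n * e n θ) * starRingEnd ℂ (h θ) =
      ((2 * Real.pi * ‖b n‖ ^ 2 : ℝ) : ℂ) := by
    intro n
    have h4 : ∀ θ : ℝ, (b n * e n θ) * starRingEnd ℂ (h θ) =
        b n * starRingEnd ℂ (h θ * starRingEnd ℂ (e n θ)) := by
      intro θ
      rw [map_mul, Complex.conj_conj]
      ring
    simp_rw [h4]
    rw [intervalIntegral.integral_const_mul]
    have h5 : ∫ θ in (-Real.pi)..Real.pi, starRingEnd ℂ (h θ * starRingEnd ℂ (e n θ)) =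
        starRingEnd ℂ (∫ θ in (-Real.pi)..Real.pi, h θ * starRingEnd ℂ (e n θ)) := by
      rw [intervalIntegral.integral_of_le (by linarith [Real.pi_pos]),
        intervalIntegral.integral_of_le (by linarith [Real.pi_pos])]
      exact integral_conj
    rw [h5, h1, map_mul, Complex.conj_ofReal]
    have h6 : b n * (((2 * Real.pi : ℝ) : ℂ) * starRingEnd ℂ (b n)) =
        ((2 * Real.pi : ℝ) : ℂ) * (b n * starRingEnd ℂ (b n)) := by ring
    rw [h6, Complex.mul_conj, Complex.normSq_eq_norm_sq]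
    push_cast
    ring
  simp_rw [h3] at h2
  have h7 : ∫ θ in (-Real.pi)..Real.pi, h θ * starRingEnd ℂ (h θ) =
      ((∫ θ in (-Real.pi)..Real.pi, ‖h θ‖ ^ 2 : ℝ) : ℂ) := by
    rw [← intervalIntegral.integral_ofReal]
    congr 1
    funext θ
    rw [Complex.mul_conj, Complex.normSq_eq_norm_sq]
  rw [h7] at h2
  have h8 : HasSum (fun n => 2 * Real.pi * ‖b n‖ ^ 2)
      (∫ θ in (-Real.pi)..Real.pi, ‖h θ‖ ^ 2) := by exact_mod_cast h2
  exact h8

theorem hfun_circle (p : ℕ) (β : ℕ → ℂ) (ρ θ : ℝ) :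
    hfun p β (ρ * exp (θ * I)) =
      ∑' n : ℕ, (β n * (ρ : ℂ) ^ (p * n)) * exp ((((p : ℤ) * n : ℤ) : ℂ) * θ * I) := by
  unfold hfun
  congr 1
  funext n
  rw [mul_pow, ← Complex.exp_nat_mul, mul_assoc]
  congr 3
  push_cast
  ring

theorem t (hPH : S_PH) (hGQ : S_GQ) (hQI : S_QI) (hKP : S_KP) : S_H2 := by
  intro p Ω f φ β V τ₀ hp hΩ hC hV
  obtain ⟨hφ, -, hcont, hdiff, -, -, hfr⟩ := hPH p Ω f φ β hp hΩ.isOpen hC
  obtain ⟨ρ₀, hρ₀, hρ₁, hK⟩ := hKP (fun _ => 1) continuous_const (fun _ => zero_le_one) 1 one_pos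
  have hfin : (Measure.hausdorffMeasure 1 : Measure ℂ) (frontier Ω) < ⊤ := fm Ω hΩ
  set L : ℝ := ((Measure.hausdorffMeasure 1 : Measure ℂ).real (frontier Ω)) with hL
  -- the bound on the circle of radius ρ
  have bound : ∀ ρ : ℝ, ρ₀ < ρ → ρ < 1 →
      ∫ θ in (-Real.pi)..Real.pi, ‖hfun p β (ρ * exp (θ * I))‖ ^ 2 ≤ 2 * L + 1 := by
    intro ρ hρ hρ'
    have hρpos : 0 < ρ := hρ₀.trans hρ
    obtain ⟨δ, hδ, hker⟩ := hK ρ hρ hρ'
    have hin : ∀ θ : ℝ, (ρ : ℂ) * exp (θ * I) ∈ ball (0 : ℂ) 1 := by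
      intro θ
      rw [mem_ball_zero_iff, norm_mul, norm_e, mul_one, Complex.norm_real, Real.norm_eq_abs,
        abs_of_pos hρpos]
      exact hρ'
    have hcc : Continuous (fun θ : ℝ => hfun p β (ρ * exp (θ * I))) := by
      rw [← continuousOn_univ]
      exact hcont.comp (by fun_prop) (fun θ _ => hin θ)
    have hnz : ∀ θ : ℝ, hfun p β (ρ * exp (θ * I)) ≠ 0 := fun θ => hC.nz _ (hin θ)
    set F : ℂ → ℂ := fun z => hfun p β z ^ 2 with hF
    set Q : ℝ → ℂ := fun θ => starRingEnd ℂ (F (ρ * exp (θ * I))) / ‖F (ρ * exp (θ * I))‖ with hQ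
    have hFnz : ∀ θ : ℝ, F (ρ * exp (θ * I)) ≠ 0 := fun θ => pow_ne_zero 2 (hnz θ)
    have hFc : Continuous (fun θ : ℝ => F (ρ * exp (θ * I))) := hcc.pow 2
    have hQc : Continuous Q := by
      apply Continuous.div (Complex.continuous_conj.comp hFc)
      · exact Complex.continuous_ofReal.comp hFc.norm
      · intro θ
        exact_mod_cast (norm_ne_zero_iff.mpr (hFnz θ))
    have hQn : ∀ θ, ‖Q θ‖ ≤ 1 := by
      intro θ
      simp only [hQ]
      rw [norm_div, RCLike.norm_conj, Complex.norm_real, norm_norm,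
        div_self (norm_ne_zero_iff.mpr (hFnz θ))]
    obtain ⟨q, hqs, hq1, hq2, hq3⟩ := hQI ρ Q hρpos hρ' hQc
    have hρ₂ : (1 + ρ) / 2 < 1 := by linarith
    obtain ⟨τ₁, hτ₁, hτ₁', hg⟩ := hGQ p Ω f φ β V τ₀ hp hΩ hC hV q ((1 + ρ) / 2) hqs hρ₂ hq2 1 one_pos
    have hδ' : 0 < min δ (1 - (1 + ρ) / 2) := lt_min hδ (by linarith)
    obtain ⟨τ₂, hτ₂, hτ₂', hf⟩ := hfr V τ₀ hV _ hδ'
    set τ : ℝ := min τ₁ τ₂ / 2 with hτ
    have hτpos : 0 < τ := by
      have := lt_min hτ₁ hτ₂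
      rw [hτ]
      linarith
    have hτ1 : τ < τ₁ := by
      have := min_le_left τ₁ τ₂
      have := lt_min hτ₁ hτ₂
      rw [hτ]
      linarith
    have hτ2 : τ < τ₂ := by
      have := min_le_right τ₁ τ₂
      have := lt_min hτ₁ hτ₂
      rw [hτ]
      linarith
    have hb1 : ∀ x ∈ frontier Ω, ‖q (φ (x + τ * V x))‖ ≤ 2 := by
      intro x hx
      obtain ⟨ha, hb⟩ := hf τ hτpos hτ2 x hx
      have h1 : 1 - δ < ‖φ (x + τ * V x)‖ := lt_of_le_of_lt (by
        have := min_le_left δ (1 - (1 + ρ) / 2)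
        linarith) ha
      have h2 : (1 + ρ) / 2 < ‖φ (x + τ * V x)‖ := lt_of_le_of_lt (by
        have := min_le_right δ (1 - (1 + ρ) / 2)
        linarith) ha
      rw [hq1 _ h2 hb.le]
      have := hker Q hQc (by simpa using hQn) _ h1 hb
      linarith
    have hb2 : ∫ x in frontier Ω, ‖q (φ (x + τ * V x))‖ ∂(Measure.hausdorffMeasure 1) ≤ 2 * L := by
      have h1 : ‖∫ x in frontier Ω, ‖q (φ (x + τ * V x))‖ ∂(Measure.hausdorffMeasure 1)‖ ≤
          2 * L := by
        apply norm_setIntegral_le_of_norm_le_const hfin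
        intro x hx
        rw [norm_norm]
        exact hb1 x hx
      exact (le_abs_self _).trans h1
    have hdF : DifferentiableOn ℂ F (ball 0 1) := hdiff.pow 2
    have h3 := hq3 F hdF
    have h4 : ∫ θ in (-Real.pi)..Real.pi, Q θ * F (ρ * exp (θ * I)) =
        ((∫ θ in (-Real.pi)..Real.pi, ‖hfun p β (ρ * exp (θ * I))‖ ^ 2 : ℝ) : ℂ) := by
      rw [← intervalIntegral.integral_ofReal]
      congr 1
      funext θ
      simp only [hQ]
      have hn0 : ((‖F (ρ * exp (θ * I))‖ : ℝ) : ℂ) ≠ 0 := by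
        exact_mod_cast (norm_ne_zero_iff.mpr (hFnz θ))
      rw [div_mul_eq_mul_div, mul_comm (starRingEnd ℂ _), Complex.mul_conj,
        Complex.normSq_eq_norm_sq, div_eq_iff hn0]
      simp only [hF, norm_pow]
      push_cast
      ring
    have h5 := hg τ hτpos hτ1
    rw [h3, h4, Complex.norm_real, Real.norm_eq_abs] at h5
    exact (le_abs_self _).trans (h5.trans (by linarith))
  -- partial sums
  apply summable_of_sum_le (c := (2 * L + 1) / (2 * Real.pi)) (fun n => by positivity)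
  intro s
  rw [le_div_iff₀ (by positivity)]
  have hpart : ∀ ρ : ℝ, ρ₀ < ρ → ρ < 1 →
      (∑ n ∈ s, ‖β n‖ ^ 2 * (ρ ^ (p * n)) ^ 2) * (2 * Real.pi) ≤ 2 * L + 1 := by
    intro ρ hρ hρ'
    have hρpos : 0 < ρ := hρ₀.trans hρ
    refine le_trans ?_ (bound ρ hρ hρ')
    have hsm : Summable (fun n => ‖β n * (ρ : ℂ) ^ (p * n)‖) := by
      have h1 := hC.sm (ρ ^ p) (by positivity) (pow_lt_one₀ hρpos.le hρ' (by omega))
      convert h1 using 2 with n
      rw [norm_mul, norm_pow, Complex.norm_real, Real.norm_eq_abs, abs_of_pos hρpos, pow_mul]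
    have hpv := parseval (fun n => β n * (ρ : ℂ) ^ (p * n)) p hp hsm
    simp_rw [hfun_circle]
    refine le_trans (le_of_eq ?_) (sum_le_hasSum s (fun n _ => by positivity) hpv)
    rw [Finset.sum_mul]
    apply Finset.sum_congr rfl
    intro n _
    rw [norm_mul, norm_pow, Complex.norm_real, Real.norm_eq_abs, abs_of_pos hρpos]
    ring
  have hlim : Tendsto (fun ρ : ℝ => (∑ n ∈ s, ‖β n‖ ^ 2 * (ρ ^ (p * n)) ^ 2) * (2 * Real.pi))
      (𝓝[<] 1) (𝓝 ((∑ n ∈ s, ‖β n‖ ^ 2) * (2 * Real.pi))) := by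
    have h1 : Continuous (fun ρ : ℝ => (∑ n ∈ s, ‖β n‖ ^ 2 * (ρ ^ (p * n)) ^ 2) *
        (2 * Real.pi)) := by fun_prop
    have h2 := h1.tendsto 1
    simp only [one_pow, mul_one] at h2
    exact h2.mono_left nhdsWithin_le_nhds
  apply le_of_tendsto hlim
  have h1 : ∀ᶠ ρ : ℝ in 𝓝[<] 1, ρ₀ < ρ := by
    apply mem_nhdsWithin_of_mem_nhds
    exact lt_mem_nhds hρ₁
  filter_upwards [h1, self_mem_nhdsWithin] with ρ ha hb
  exact hpart ρ ha hb

end Pool.Agent.Helper19.ST.H2
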