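import Pool.Agent.Helper69.ST.GoalsR
import Pool.Agent.Helper54.BA.CT

open MeasureTheory Set Complex Metric Filter
open scoped ContDiff Topology ENNReal Manifold

namespace Pool.Agent.Helper19.ST.RU

open Pool.Agent.Helper69.ST

/-- a smooth cutoff function -/
theorem cutoff (K U : Set ℂ) (hK : IsCompact K) (hU : IsOpen U) (hKU : K ⊆ U) :
    ∃ χ : ℂ → ℝ, ContDiff ℝ ∞ χ ∧ HasCompactSupport χ ∧ tsupport χ ⊆ U ∧
      ∀ᶠ x in 𝓝ˢ K, χ x = 1 := by
  obtain ⟨L, hL, hKL, hLU⟩ := exists_compact_between hK hU hKU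
  obtain ⟨f, h1, h2, h3⟩ := exists_contMDiffMap_one_nhds_of_subset_interior (n := (⊤ : ℕ∞)) 𝓘(ℝ, ℂ)
    hK.isClosed hKL
  have hts : tsupport (f : ℂ → ℝ) ⊆ L := by
    apply closure_minimal _ hL.isClosed
    intro x hx
    by_contra hxL
    exact hx (h2 x hxL)
  refine ⟨f, f.contMDiff.contDiff, ?_, hts.trans hLU, h1⟩
  exact HasCompactSupport.of_support_subset_isCompact hL (subset_closure.trans hts)

/-- The cut off function. -/
theorem extend (K U : Set ℂ) (F : ℂ → ℂ) (hK : IsCompact K) (hU : IsOpen U) (hKU : K ⊆ U)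
    (hF : DifferentiableOn ℂ F U) : ∃ G : ℂ → ℂ, ContDiff ℝ 1 G ∧ HasCompactSupport G ∧
      ∀ z ∈ K, ∀ᶠ x in 𝓝 z, G x = F x := by
  obtain ⟨χ, h1, h2, h3, h4⟩ := cutoff K U hK hU hKU
  refine ⟨fun z => (χ z : ℂ) * F z, ?_, ?_, ?_⟩
  · rw [contDiff_iff_contDiffAt]
    intro z
    by_cases hz : z ∈ U
    · have h5 : ContDiffAt ℂ 1 F z := (hF.contDiffOn hU).contDiffAt (hU.mem_nhds hz)
      have h6 : ContDiffAt ℝ 1 F z := h5.restrict_scalars ℝ
      have h7 : ContDiffAt ℝ 1 (fun z => (χ z : ℂ)) z := by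
        have h8 : ContDiff ℝ 1 χ := h1.of_le (by exact_mod_cast le_top)
        exact (Complex.ofRealCLM.contDiff.comp h8).contDiffAt
      exact h7.mul h6
    · have h5 : z ∉ tsupport χ := fun h => hz (h3 h)
      have h6 : (fun z => (χ z : ℂ) * F z) =ᶠ[𝓝 z] fun _ => 0 := by
        have h7 := (isClosed_tsupport χ).isOpen_compl.mem_nhds h5
        filter_upwards [h7] with x hx
        rw [image_eq_zero_of_notMem_tsupport hx]
        simp
      exact contDiffAt_const.congr_of_eventuallyEq h6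
  · have h5 : HasCompactSupport (fun z => (χ z : ℂ)) := h2.comp_left Complex.ofReal_zero
    exact h5.mul_right
  · intro z hz
    have h5 : ∀ᶠ x in 𝓝 z, χ x = 1 := h4.filter_mono (nhds_le_nhdsSet hz)
    filter_upwards [h5] with x hx
    rw [hx]
    simp

open Pool.Agent.Helper28.BA in
theorem t (hPP : S_PP) : S_RU := by
  intro K U F hK hKc hU hKU hF ε hε
  obtain ⟨G, hG1, hG2, hG3⟩ := extend K U F hK hU hKU hF
  set D : ℂ → ℂ := db G with hD
  have hfc := hG1.continuous_fderiv one_ne_zero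
  have hDc : Continuous D := by
    simp only [hD]
    unfold db
    exact continuous_const.mul ((hfc.clm_apply continuous_const).add
      (continuous_const.mul (hfc.clm_apply continuous_const)))
  have hDs : HasCompactSupport D := by
    refine (hG2.fderiv (𝕜 := ℝ)).mono ?_
    intro z hz
    rw [Function.mem_support] at hz ⊢
    intro h0
    apply hz
    simp only [hD]
    unfold db
    rw [h0]
    simp
  have hD0 : ∀ z ∈ K, ∀ᶠ x in 𝓝 z, D x = 0 := by
    intro z hz
    have h1 := (hG3 z hz).eventually_nhds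
    have h2 : ∀ᶠ x in 𝓝 z, x ∈ U := hU.mem_nhds (hKU hz)
    filter_upwards [h1, h2] with x hx hxU
    have h3 : fderiv ℝ G x = fderiv ℝ F x := Filter.EventuallyEq.fderiv_eq hx
    have h4 : HasFDerivAt F (fderiv ℂ F x) x :=
      ((hF x hxU).differentiableAt (hU.mem_nhds hxU)).hasFDerivAt
    have h5 := (h4.restrictScalars ℝ).fderiv
    simp only [hD]
    unfold db
    rw [h3, h5]
    have h6 : (fderiv ℂ F x) I = I * (fderiv ℂ F x) 1 := by
      have h7 := (fderiv ℂ F x).map_smul I (1 : ℂ)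
      rwa [smul_eq_mul, smul_eq_mul, mul_one] at h7
    simp only [ContinuousLinearMap.coe_restrictScalars']
    rw [h6, ← mul_assoc, I_mul_I]
    ring
  -- the formula
  have hform : ∀ z : ℂ, ∫ ζ : ℂ, D ζ * (ζ - z)⁻¹ = -Real.pi * G z := by
    intro z
    have h1 : ContDiff ℝ 1 (fun ζ => G (ζ + z)) := hG1.comp (contDiff_id.add contDiff_const)
    have h2 : HasCompactSupport (fun ζ => G (ζ + z)) :=
      hG2.comp_homeomorph (Homeomorph.addRight z)
    have h3 := Pool.Agent.Helper54.BA.pompeiu h1 h2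
    have h4 : ∀ ζ : ℂ, db (fun ζ => G (ζ + z)) ζ = D (ζ + z) := by
      intro ζ
      simp only [hD]
      unfold db
      rw [fderiv_comp_add_right]
    simp only [h4, zero_add] at h3
    rw [← h3, ← integral_add_right_eq_self (fun ζ : ℂ => D ζ * (ζ - z)⁻¹) z]
    congr 1
    funext ζ
    rw [add_sub_cancel_right, mul_comm]
  -- the Banach space
  have : CompactSpace K := isCompact_iff_compactSpace.mp hK
  set A : Submodule ℂ C(K, ℂ) :=
    (LinearMap.range (Polynomial.toContinuousMapOnAlgHom K).toLinearMap).topologicalClosure with hA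
  have hjc : Continuous (fun p : ℂ × K => D p.1 * (p.1 - p.2)⁻¹) := by
    rw [continuous_iff_continuousAt]
    rintro ⟨ζ, z⟩
    by_cases h : ζ = z
    · have h1 : (fun p : ℂ × K => D p.1 * (p.1 - p.2)⁻¹) =ᶠ[𝓝 (ζ, z)] fun _ => 0 := by
        have h2 := hD0 z z.2
        rw [← h] at h2
        have h3 : ∀ᶠ p : ℂ × K in 𝓝 (ζ, z), D p.1 = 0 := (continuous_fst.tendsto (ζ, z)).eventually h2
        filter_upwards [h3] with p hp
        rw [hp, zero_mul]
      exact continuousAt_const.congr h1.symm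
    · apply ContinuousAt.mul (hDc.comp continuous_fst).continuousAt
      apply ContinuousAt.inv₀
      · exact (continuous_fst.sub (continuous_subtype_val.comp continuous_snd)).continuousAt
      · exact sub_ne_zero.mpr h
  set Φ : C(ℂ, C(K, ℂ)) := ContinuousMap.curry ⟨_, hjc⟩ with hΦ
  have hΦa : ∀ ζ z, Φ ζ z = D ζ * (ζ - z)⁻¹ := fun ζ z => rfl
  have hΦA : ∀ ζ, Φ ζ ∈ A := by
    intro ζ
    by_cases h : D ζ = 0
    · have h1 : Φ ζ = 0 := by
        ext z
        rw [hΦa, h, zero_mul]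
        rfl
      rw [h1]
      exact A.zero_mem
    · have hζ : ζ ∉ K := fun hζ => h (hD0 ζ hζ).self_of_nhds
      rw [hA, ← SetLike.mem_coe, Submodule.topologicalClosure_coe, Metric.mem_closure_iff]
      intro δ hδ
      obtain ⟨P, hP⟩ := hPP K hK hKc ζ hζ (δ / (2 * ‖D ζ‖)) (by
        have := norm_pos_iff.mpr h
        positivity)
      refine ⟨Polynomial.toContinuousMapOnAlgHom K (Polynomial.C (D ζ) * P), ⟨_, rfl⟩, ?_⟩
      rw [dist_eq_norm]
      refine lt_of_le_of_lt ((ContinuousMap.norm_le _ (by positivity : 0 ≤ δ / 2)).mpr ?_)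
        (half_lt_self hδ)
      intro z
      have h1 : (Φ ζ - Polynomial.toContinuousMapOnAlgHom K (Polynomial.C (D ζ) * P)) z =
          D ζ * ((ζ - z)⁻¹ - P.eval (z : ℂ)) := by
        rw [ContinuousMap.sub_apply, hΦa]
        simp [Polynomial.toContinuousMapOnAlgHom]
        ring
      rw [h1, norm_mul]
      have h2 := (hP z z.2).le
      have h3 := norm_pos_iff.mpr h
      calc ‖D ζ‖ * ‖(ζ - z)⁻¹ - P.eval (z : ℂ)‖ ≤ ‖D ζ‖ * (δ / (2 * ‖D ζ‖)) :=
            mul_le_mul_of_nonneg_left h2 h3.le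
        _ = δ / 2 := by field_simp
  -- the integral in A
  have : CompleteSpace A := (Submodule.isClosed_topologicalClosure _).completeSpace_coe
  set Ψ : ℂ → A := fun ζ => ⟨Φ ζ, hΦA ζ⟩ with hΨ
  have hΨc : Continuous Ψ := Φ.continuous.subtype_mk _
  have hΨs : HasCompactSupport Ψ := by
    refine hDs.mono ?_
    intro ζ hζ
    rw [Function.mem_support] at hζ ⊢
    intro h0
    apply hζ
    apply Subtype.ext
    ext z
    show Φ ζ z = 0
    rw [hΦa, h0, zero_mul]
  have hΨi : Integrable Ψ := hΨc.integrable_of_hasCompactSupport hΨs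
  set I₀ : A := ∫ ζ, Ψ ζ with hI₀
  have hval : ∀ z : K, (I₀ : C(K, ℂ)) z = -Real.pi * F z := by
    intro z
    set ev : A →L[ℂ] ℂ := (ContinuousMap.evalCLM ℂ z).comp A.subtypeL with hev
    have h1 := ev.integral_comp_comm hΨi
    have h2 : ∀ ζ, ev (Ψ ζ) = D ζ * (ζ - z)⁻¹ := fun ζ => rfl
    simp only [h2] at h1
    rw [hform] at h1
    have h3 : G z = F z := (hG3 z z.2).self_of_nhds
    rw [h3] at h1
    exact h1.symm
  have hcl : ∀ g : C(K, ℂ), g ∈ A → ∃ P : Polynomial ℂ,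
      dist g (Polynomial.toContinuousMapOnAlgHom K P) < ε := by
    intro g hg
    rw [hA, ← SetLike.mem_coe, Submodule.topologicalClosure_coe, Metric.mem_closure_iff] at hg
    obtain ⟨g', ⟨P, rfl⟩, hg'⟩ := hg ε hε
    exact ⟨P, hg'⟩
  obtain ⟨P, hg⟩ := hcl _ I₀.2
  refine ⟨Polynomial.C (-(Real.pi : ℂ)⁻¹) * P, fun z hz => ?_⟩
  have h1 : ‖(I₀ : C(K, ℂ)) ⟨z, hz⟩ - P.eval z‖ < ε := by
    have h2 := lt_of_le_of_lt (ContinuousMap.norm_coe_le_norm _ (⟨z, hz⟩ : K))
      (by rwa [dist_eq_norm] at hg)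
    exact h2
  rw [hval] at h1
  have hpi : (Real.pi : ℂ) ≠ 0 := by exact_mod_cast Real.pi_ne_zero
  have h2 : F z - (Polynomial.C (-(Real.pi : ℂ)⁻¹) * P).eval z =
      (-(Real.pi : ℂ)⁻¹) * (-Real.pi * F z - P.eval z) := by
    rw [Polynomial.eval_mul, Polynomial.eval_C]
    field_simp
    ring
  rw [h2, norm_mul, norm_neg, norm_inv, Complex.norm_real, Real.norm_eq_abs,
    abs_of_pos Real.pi_pos]
  have h3 : Real.pi⁻¹ ≤ 1 := inv_le_one_of_one_le₀ (by linarith [Real.pi_gt_three])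
  have h4 := norm_nonneg (-(Real.pi : ℂ) * F z - P.eval z)
  have h5 : 0 ≤ Real.pi⁻¹ := by positivity
  calc Real.pi⁻¹ * ‖-(Real.pi : ℂ) * F z - P.eval z‖ ≤ 1 * ‖-(Real.pi : ℂ) * F z - P.eval z‖ :=
        mul_le_mul_of_nonneg_right h3 h4
    _ < ε := by rw [one_mul]; exact h1

end Pool.Agent.Helper19.ST.RU
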